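import Pool.Agent.Lib.GH.Defs
import Pool.Agent.Lib.HS32.MAll
import Pool.Agent.Lib.HS76.Mom

/-! Project kr24: mean values along the twisted family. -/

open scoped Classical Topology ContDiff ComplexOrder Matrix ENNReal
open Set MeasureTheory Complex Metric Filter

noncomputable section

namespace Pool.Agent.Lib.K88

open Pool.Agent.Lib.SV (E)
open Pool.Agent.Lib.HS32 Pool.Agent.Lib.HS32.Mf

theorem amgm {n : ℕ} (hn : 0 < n) {G B : Mat n} (hG : G.PosDef) (hB : B.PosDef) {y : ℝ}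
    (hy : (B.det / G.det).re = Real.exp y) : n * Real.exp (y / n) ≤ (G⁻¹ * B).trace.re := by
  obtain ⟨lam, h⟩ := HS76.eig hG hB.1
  have hp := h.pos hB
  have hn' : (0 : ℝ) < n := Nat.cast_pos.2 hn
  rw [h.det_eq, mul_div_cancel_left₀ _ hG.det_pos.ne', ofReal_re] at hy
  have h1 : ∑ i, Real.log (lam i) = y := by
    rw [← Real.log_prod fun i _ => (hp i).ne', hy, Real.log_exp]
  have c0 := Real.exp_pos (y / n)
  have h2 : ∑ i, Real.exp (y / n) * (1 + (Real.log (lam i) - y / n)) ≤ ∑ i, lam i :=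
    Finset.sum_le_sum fun i _ => by
      have := mul_le_mul_of_nonneg_left (Real.add_one_le_exp (Real.log (lam i) - y / n)) c0.le
      rw [← Real.exp_add, add_sub_cancel, Real.exp_log (hp i)] at this
      linarith
  rw [← Finset.mul_sum, Finset.sum_add_distrib, Finset.sum_sub_distrib, h1] at h2
  simp only [Finset.sum_const, Finset.card_univ, Fintype.card_fin, nsmul_eq_mul, mul_one] at h2
  rw [mul_div_cancel₀ _ hn'.ne', sub_self, add_zero] at h2
  rw [h.tr_re]
  linarith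

variable {n : ℕ} {M : Mf n}

/-- The bounds for a potential `u` with upper bound `a`. -/
structure Ph (M : Mf n) (H G : M.Fam (Mat n)) (u : M.X → ℝ) (a C : ℝ) : Prop where
  le : ∀ x, u x ≤ a
  mean : ∀ y, M.Sm y → ∀ N : ℝ, 0 ≤ N →
    ∫ x, Real.exp (u x - a) * (N + M.lap G y x) ∂M.mu H ≤ C * N
  sub : ∀ L : ℝ, 0 < L → (M.mu H).real {x | u x - a ≤ -L} ≤ C / L
  grad : ∫ x, Real.exp (u x - a) * M.gr H u u x ∂M.mu H ≤ C
  trc : ∫ x, M.tr H G x ∂M.mu H ≤ C

variable [M.Cpt] {H B : M.Fam (Mat n)}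

theorem vol_cont (hH : M.Met H) {T : M.Fam (Mat n)} (hT : M.Form T) :
    Continuous fun t : ℝ => ∫ x, M.dq H (t • H + T) x ∂M.mu H := by
  obtain ⟨L, -, hI⟩ := HS76.interp_mat n
  have hi : ∀ t : ℝ, Integrable (M.dq H (t • H + T)) (M.mu H) := fun t =>
    (mMU n M H hH).2.2.2.2.1 ℝ _
      ((mINV n M H hH).1 _ ((hH.toForm.smul t).add hT).toTen).2.2.2.1.continuous
  have e : (fun t : ℝ => ∫ x, M.dq H (t • H + T) x ∂M.mu H) = fun t => ∑ a : Fin (n + 1),
      (L a).eval t * ∫ x, M.dq H (((a : ℝ) + 1) • H + T) x ∂M.mu H := by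
    funext t
    have e1 : ∀ x, M.dq H (t • H + T) x =
        ∑ a : Fin (n + 1), (L a).eval t * M.dq H (((a : ℝ) + 1) • H + T) x := fun x =>
      hI (M.ev H x) (M.ev T x) (hH.ev_pos x) (AllOn.ch hT.herm x) t
    simp only [e1]
    rw [integral_finsetSum _ fun a _ => (hi _).const_mul _]
    simp only [integral_const_mul]
  rw [e]
  exact continuous_finsetSum _ fun a _ => (L a).continuous.mul continuous_const

theorem clo_tw (hK : M.Kae H) (hB : M.Clo B) : M.Clo (B - M.ric H) :=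
  hB.sub ((mHES n M).2.2.2.2.2.2.2.2.1 H hK.toMet)

omit [M.Cpt] in
theorem gB_eq (ε : ℝ) (u : M.X → ℝ) : M.gB H B ε u = ε • H + (B - M.ric H) + M.hs u := by
  rw [gB, add_sub_assoc]

/-- The total mass of the density is the volume of the class. -/
theorem mass (hK : M.Kae H) (hB : M.Clo B) {ε : ℝ} {u : M.X → ℝ} (hu : M.SolB H B ε u) :
    ∫ x, Real.exp (u x) ∂M.mu H = ∫ x, M.dq H (ε • H + (B - M.ric H)) x ∂M.mu H := by
  rw [← mCOH n M H _ u hK.toMet ((hK.toClo.smul ε).add (clo_tw hK hB)) hu.sm, ← gB_eq]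
  simp only [hu.det]

theorem base (hK : M.Kae H) (hB : M.Clo B) :
    ∃ C₀ : ℝ, 0 < C₀ ∧ ∀ ε ∈ Ioc (0 : ℝ) 1, ∀ u, M.SolB H B ε u →
      M.Le 0 (C₀ • H + M.hs u) ∧ ∫ x, M.tr H (M.gB H B ε u) x ∂M.mu H ≤
        (M.mu H).real univ * (C₀ * n) := by
  obtain ⟨c, hc, hr, -⟩ := (mBD n M H hK.toMet).1 _ (clo_tw hK hB).toForm
  obtain ⟨-, hf, -, hv, hi, -⟩ := mMU n M H hK.toMet
  refine ⟨1 + c, by linarith, fun ε hε u hu => ?_⟩
  have h1 : M.Le (ε • H + (B - M.ric H)) ((1 + c) • H) := by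
    rw [add_smul]
    exact (hK.toMet.le_smul hε.2).add hr
  have h2 := hu.kae.toMet.nonneg
  rw [gB_eq] at h2
  refine ⟨h2.trans (h1.add (Le.refl (M.hs u))), ?_⟩
  have hs := ((mLAP n M _ _ hu.sm hu.sm).2.2 _ hK.toMet).1
  have h3 := integral_mono (μ := M.mu H) (g := fun x => (1 + c) * n + M.lap H u x)
    (hi ℝ _ ((mINV n M H hK.toMet).1 _ hu.kae.toTen).2.1.continuous)
    (hi ℝ _ ((sm_const _).add hs).continuous) fun x => by
      have := hK.toMet.tr_mono h1 x
      rw [tr_smul, hK.toMet.tr_self] at this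
      beta_reduce
      rw [gB_eq, tr_add, lap]
      linarith
  rw [integral_add (integrable_const _) (hi ℝ _ hs.continuous), integral_const,
    ((mGRN n M).2 H u u hK hu.sm hu.sm).1, smul_eq_mul] at h3
  linarith

/-- The bounds hold along the twisted family, with one constant. -/
theorem phi (hK : M.Kae H) (hB : M.Clo B) : ∃ C : ℝ, 0 < C ∧ ∀ ε ∈ Ioc (0 : ℝ) 1, ∀ u,
    M.SolB H B ε u → ∃ a, Ph M H (M.gB H B ε u) u a C ∧
      Real.exp a ≤ C * ∫ x, M.dq H (ε • H + (B - M.ric H)) x ∂M.mu H := by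
  have hL := mLAP
  obtain ⟨C₀, h0, hC₀⟩ := base hK hB
  obtain ⟨C₁, h1, hC₁, -⟩ := mPSH n M H C₀ hK.toMet
  obtain ⟨-, hf, -, hv, hi, -, hch⟩ := mMU n M H hK.toMet
  obtain ⟨m, hm⟩ : ∃ m, m = (M.mu H).real univ := ⟨_, rfl⟩
  rw [← hm] at hv hC₀
  have p1 : 0 < (Real.exp (-C₁ / m) * m)⁻¹ := by positivity
  have p2 : 0 ≤ C₀ * n * m := by positivity
  refine ⟨C₁ + (Real.exp (-C₁ / m) * m)⁻¹ + m + C₀ * n * m, by positivity, fun ε hε u hu => ?_⟩
  obtain ⟨y, hy⟩ := hu.sm.exists_max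
  obtain ⟨hle, htr⟩ := hC₀ ε hε u hu
  rw [← mass hK hB hu]
  obtain ⟨V, he⟩ : ∃ V, ∫ x, Real.exp (u x) ∂M.mu H = V := ⟨_, rfl⟩
  rw [he]
  have s1 : M.Sm fun x => u x - u y := hu.sm.sub (sm_const _)
  have i1 := hi ℝ _ s1.continuous
  have i2 := hi ℝ _ hu.sm.exp.continuous
  have a1 : -C₁ ≤ ∫ x, (u x - u y) ∂M.mu H := by
    refine hC₁ _ s1 (fun e he z hz => ?_) (fun x => sub_nonpos.2 (hy x)) ⟨y, sub_self _⟩
    have := (hL n M u _ hu.sm (sm_const (u y))).1 (u y) e he z hz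
    have h2 := hle e he z hz
    simp only [Pi.add_apply] at h2 ⊢
    rwa [this.2.2.1, this.1, sub_zero (M.hs u e z)]
  have a2 : ∫ x, (u y - u x) ∂M.mu H ≤ C₁ := by
    have := integral_neg (μ := M.mu H) fun x => u x - u y
    simp only [neg_sub] at this
    linarith
  have a3 : Real.exp (u y) * (Real.exp (-C₁ / m) * m) ≤ V := by
    have h2 := integral_mono (μ := M.mu H) (f := fun x => Real.exp (u y) * Real.exp (-C₁ / m) *
      ((u x - u y) + (C₁ / m + 1))) ((i1.add (integrable_const _)).const_mul _) i2 fun x => by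
        have := mul_le_mul_of_nonneg_left (Real.add_one_le_exp (u x - u y + C₁ / m))
          (Real.exp_pos (u y + -C₁ / m)).le
        rwa [← Real.exp_add, show u y + -C₁ / m + (u x - u y + C₁ / m) = u x by ring,
          Real.exp_add, add_assoc] at this
    rw [he, integral_const_mul, integral_add i1 (integrable_const _), integral_const, ← hm,
      smul_eq_mul, mul_add m, mul_div_cancel₀ _ hv.ne', mul_assoc] at h2
    exact le_trans (mul_le_mul_of_nonneg_left (mul_le_mul_of_nonneg_left (by linarith)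
      (Real.exp_pos _).le) (Real.exp_pos _).le) h2
  have a4 : V ≤ m * Real.exp (u y) := by
    have h2 := integral_mono (μ := M.mu H) i2 (integrable_const (Real.exp (u y)))
      fun x => Real.exp_le_exp.2 (hy x)
    rwa [he, integral_const, ← hm] at h2
  have hV : 0 ≤ V := le_trans (by positivity) a3
  refine ⟨u y, ⟨hy, fun w hw N hN => ?_, fun L hL0 => ?_, ?_, by nlinarith⟩, ?_⟩
  · have hG := hu.kae
    have s2 := ((hL n M w w hw hw).2.2 _ hG.toMet).1
    have h2 := ((mGRN n M).2 _ w w hG hw hw).1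
    rw [(hch _ hG.toMet).2.1] at h2
    simp only [hu.det] at h2
    have h3 : ∀ x, Real.exp (u x - u y) * (N + M.lap (M.gB H B ε u) w x) =
        (Real.exp (u y))⁻¹ * (N * Real.exp (u x) +
          Real.exp (u x) * M.lap (M.gB H B ε u) w x) := fun x => by
      rw [Real.exp_sub]
      ring
    simp only [h3]
    rw [integral_const_mul, integral_add (i2.const_mul N) (hi ℝ _ (hu.sm.exp.mul s2).continuous),
      h2, integral_const_mul, he, add_zero, inv_mul_le_iff₀ (Real.exp_pos _)]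
    have h4 := mul_le_mul_of_nonneg_left a4 hN
    have h5 : 0 ≤ Real.exp (u y) * ((C₁ + (Real.exp (-C₁ / m) * m)⁻¹ + C₀ * n * m) * N) := by
      positivity
    nlinarith
  · have h2 := mul_meas_ge_le_integral_of_nonneg (μ := M.mu H) (f := fun x => u y - u x)
      (Filter.Eventually.of_forall fun x => sub_nonneg.2 (hy x))
      (hi ℝ _ ((sm_const _).sub hu.sm).continuous) L
    rw [le_div_iff₀' hL0, show {x | u x - u y ≤ -L} = {x | L ≤ u y - u x} from
      Set.ext fun x => le_neg.trans (congrArg (L ≤ ·) (neg_sub (u x) (u y))).to_iff]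
    linarith
  · have c1 : ∀ x, ContDiffAt ℝ (⊤ : ℕ∞) (fun s => Real.exp (s - u y)) (u x) :=
      fun x => (contDiffAt_id.sub contDiffAt_const).exp
    have s2 : M.Sm fun x => Real.exp (u x - u y) := s1.exp
    have hu2 := (hL n M u u hu.sm hu.sm).2.2 H hK.toMet
    have h2 := ((mGRN n M).2 H u _ hK hu.sm s2).2.1
    have h3 : ∀ x, M.gr H u (fun x => Real.exp (u x - u y)) x =
        Real.exp (u x - u y) * M.gr H u u x := fun x => by
      rw [(((hL n M u _ hu.sm s2).2.2 H hK.toMet).2.2.1 x 0).2.2.2.2.2.1, (hu2.2.2.2.1 _ c1 x).2,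
        (((hasDerivAt_id' (u x)).sub_const (u y)).exp).deriv, mul_one]
    simp only [h3] at h2
    have h4 := integral_mono (μ := M.mu H) (integrable_const (-(C₀ * n)))
      (hi ℝ _ (s2.mul hu2.1).continuous) fun x => by
        have h5 := hK.toMet.tr_nonneg hle x
        rw [tr_add, tr_smul, hK.toMet.tr_self] at h5
        have h6 : Real.exp (u x - u y) ≤ 1 := Real.exp_le_one_iff.2 (sub_nonpos.2 (hy x))
        have h7 : 0 ≤ C₀ * n := by positivity
        beta_reduce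
        rw [lap]
        nlinarith [Real.exp_pos (u x - u y)]
    rw [h2, integral_const, ← hm, smul_eq_mul, mul_neg, neg_le_neg_iff] at h4
    nlinarith
  · refine le_trans ?_ (mul_le_mul_of_nonneg_right
      (show (Real.exp (-C₁ / m) * m)⁻¹ ≤ _ by linarith) hV)
    rw [le_inv_mul_iff₀ (by positivity), mul_comm]
    exact a3

omit [M.Cpt] in
/-- The trace is bounded below by the density. -/
theorem tr_ge (hn : 0 < n) (hK : M.Kae H) {ε : ℝ} {u : M.X → ℝ} (hu : M.SolB H B ε u) (x : M.X) :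
    n * Real.exp (-u x / n) ≤ M.tr (M.gB H B ε u) H x := by
  refine amgm hn (hu.kae.toMet.ev_pos x) (hK.toMet.ev_pos x) ?_
  have h := ((mINV n M H hK.toMet).2.2.2.2.2.2.2 _ hu.kae.toMet).2.1 x
  rw [hu.det] at h
  rw [Real.exp_neg]
  exact eq_inv_of_mul_eq_one_right h

/-- When the volume of the limit class vanishes, the traces tend to infinity uniformly. -/
theorem blow (hn : 0 < n) (hK : M.Kae H) (hB : M.Clo B)
    (h0 : ∫ x, M.dq H (B - M.ric H) x ∂M.mu H = 0) (T : ℝ) :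
    ∀ᶠ ε in 𝓝[>] (0 : ℝ), ∀ u, M.SolB H B ε u → ∀ x, T ≤ M.tr (M.gB H B ε u) H x := by
  obtain ⟨C, hC, h⟩ := phi hK hB
  have hn' : (1 : ℝ) ≤ n := Nat.one_le_cast.2 hn
  have h1 := ((vol_cont hK.toMet (clo_tw hK hB).toForm).tendsto 0).const_mul C
  rw [zero_smul, zero_add, h0, mul_zero] at h1
  filter_upwards [(h1.eventually (gt_mem_nhds (Real.exp_pos (-(n * T))))).filter_mono
    nhdsWithin_le_nhds, Ioc_mem_nhdsGT (zero_lt_one' ℝ)] with ε h2 hε u hu x
  obtain ⟨a, hP, ha⟩ := h ε hε u hu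
  have h3 : a < -(n * T) := Real.exp_lt_exp.1 (ha.trans_lt h2)
  have h4 : T ≤ -u x / n := by
    rw [le_div_iff₀ (by linarith)]
    linarith [hP.le x]
  have h5 := Real.add_one_le_exp (-u x / n)
  have h6 := Real.exp_pos (-u x / n)
  have := tr_ge hn hK hu x
  nlinarith

end Pool.Agent.Lib.K88
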