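import Pool.Agent.Lib.KR88.Null
import Pool.Agent.Lib.KR94.Hol

/-! Project kr24: the integral bounds in a chart, and the holomorphy of the null field. -/

open scoped Classical Topology ContDiff ComplexOrder Matrix ENNReal
open Set MeasureTheory Complex Metric Filter

noncomputable section

namespace Pool.Agent.Lib.K88

open Pool.Agent.Lib.SV (E)
open Pool.Agent.Lib.HS32 Pool.Agent.Lib.HS32.Mf

variable {n : ℕ} {M : Mf n} {H B G : M.Fam (Mat n)}

theorem tr_sS (hG : M.Met G) (hH : M.Ten H) :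
    M.All fun e z => M.tr G H (e.symm z) = K94.sS (G e) (H e) z := ((mINV n M G hG).1 H hH).1

theorem dd_congr {f f' : E n → ℂ} {z : E n} (c : ℂ) (h : ∀ᶠ w in 𝓝 z, f' w = f w - c) :
    dd f' f' z = dd f f z := by
  have e : fderiv ℝ f' z = fderiv ℝ f z := by
    rw [EventuallyEq.fderiv_eq (f := fun w => f w - c) h, fderiv_sub_const]
  ext i j
  simp only [dd, dz, dzb, e, Matrix.of_apply]

theorem gr_gN (hG : M.Met G) {f : M.X → ℝ} (hf : M.Sm f) {e : M.Ch} (he : e ∈ M.C) {z : E n}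
    (hz : z ∈ e.target) {g : E n → ℝ} (c : ℝ) (h : ∀ᶠ w in 𝓝 z, g w = f (e.symm w) - c) :
    M.gr G f f (e.symm z) = K94.gN (G e) g z := by
  rw [K94.gN, dd_congr (f := M.lc f e) (c : ℂ) (h.mono fun w k => by rw [k, ofReal_sub]; rfl)]
  exact ((mINV n M G hG).1 _ ((mHES n M).2.1 f f hf hf).1).1 e he z hz

/-- The gradient term read in a chart. -/
theorem eT_eq (hG : M.Met G) (hH : M.Ten H) : M.All fun e z => K94.eT (G e) (H e) z =
    (en (G e) (H e) (H e) z).re -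
      M.gr G (M.tr G H) (M.tr G H) (e.symm z) / M.tr G H (e.symm z) := fun e he z hz => by
  beta_reduce
  rw [K94.eT, tr_sS hG hH e he z hz, gr_gN hG ((mINV n M G hG).1 H hH).2.1 he hz 0
    (((tr_sS hG hH).ev he hz).mono fun w k => by rw [k, sub_zero])]

variable [M.Cpt]

/-- The bounds in a chart. -/
theorem chart (hK : M.Kae H) (hB : M.Clo B) {e : M.Ch} (he : e ∈ M.C) {K : Set (E n)}
    (cK : IsCompact K) (hs : K ⊆ e.target) {C₀ N : ℝ} (hC : 0 < C₀) (hN : 0 ≤ N) :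
    ∃ C : ℝ, 0 < C ∧ ∀ (G : M.Fam (Mat n)) (u y : M.X → ℝ) (a : ℝ), M.Met G → M.Sm u → M.Sm y →
      Ph M H G u a C₀ → (∀ x, 0 ≤ N + M.lap G y x) →
      ∫⁻ z in K, ENNReal.ofReal (M.tr H G (e.symm z) + Real.exp (u (e.symm z) - a) *
        (N + M.lap G y (e.symm z)) +
          Real.exp (u (e.symm z) - a) * M.gr H u u (e.symm z)) ≤ ENNReal.ofReal C ∧
      ∫⁻ z in K, ENNReal.ofReal (Real.exp (u (e.symm z) - a) * (N + M.lap G y (e.symm z))) ≤
        ENNReal.ofReal C ∧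
      ∀ A : ℝ, 0 < A → volume {z | z ∈ K ∧ u (e.symm z) - a < -A} ≤ ENNReal.ofReal (C / A) := by
  obtain ⟨A, A1, -, k2, k3⟩ := chart_le hK.toMet he cK hs
  obtain ⟨-, hf, -, -, hi, -⟩ := mMU n M H hK.toMet
  have A0 : 0 < A := by linarith
  have p0 := mul_nonneg hC.le hN
  refine ⟨A * (C₀ + C₀ * N + C₀), by positivity, fun G u y a hG hu hy hP hW => ?_⟩
  have su : Continuous fun x => u x - a := hu.continuous.sub continuous_const
  have c1 := ((mINV n M H hK.toMet).1 _ hG.toTen).2.1.continuous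
  have c2 : Continuous fun x => Real.exp (u x - a) * (N + M.lap G y x) :=
    su.rexp.mul (continuous_const.add ((mLAP n M y y hy hy).2.2 _ hG).1.continuous)
  have l3 := (mLAP n M u u hu hu).2.2 _ hK.toMet
  have c3 : Continuous fun x => Real.exp (u x - a) * M.gr H u u x := su.rexp.mul l3.2.1.continuous
  have n1 := hK.toMet.tr_nonneg hG.nonneg
  have n2 : ∀ x, 0 ≤ Real.exp (u x - a) * (N + M.lap G y x) :=
    fun x => mul_nonneg (Real.exp_pos _).le (hW x)
  have n3 : ∀ x, 0 ≤ Real.exp (u x - a) * M.gr H u u x :=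
    fun x => mul_nonneg (Real.exp_pos _).le (l3.2.2.1 x 0).2.2.2.2.2.2.1
  have m2 := hP.mean y hy N hN
  refine ⟨(k2 _ ((c1.add c2).add c3) fun x => add_nonneg (add_nonneg (n1 x) (n2 x)) (n3 x)).trans
    (ENNReal.ofReal_le_ofReal (mul_le_mul_of_nonneg_left ?_ A0.le)), (k2 _ c2 n2).trans
    (ENNReal.ofReal_le_ofReal (mul_le_mul_of_nonneg_left (by linarith) A0.le)), fun L L0 => ?_⟩
  · have e1 := integral_add (hi ℝ _ (c1.add c2)) (hi ℝ _ c3)
    have e2 := integral_add (hi ℝ _ c1) (hi ℝ _ c2)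
    simp only [Pi.add_apply] at e1 e2 ⊢
    rw [e1, e2]
    linarith [hP.trc, hP.grad]
  · refine le_trans (measure_mono fun z hz => ?_) ((k3 {x | u x - a ≤ -L}
      (isClosed_le su continuous_const).measurableSet).trans (ENNReal.ofReal_le_ofReal ?_))
    · exact ⟨hz.1, hz.2.le⟩
    · rw [mul_div_assoc]
      refine mul_le_mul_of_nonneg_left ((hP.sub L L0).trans ?_) A0.le
      exact div_le_div_of_nonneg_right (by linarith) L0.le

/-- The field on whose direction the curvature term forces concentration is holomorphic. -/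
theorem hol_of (hn : 0 < n) (hK : M.Kae H) (hB : M.Clo B)
    (h0 : ∫ x, M.dq H (B - M.ric H) x ∂M.mu H = 0) {e : M.Ch} (he : e ∈ M.C) {U : Set (E n)}
    (hU : IsOpen U) (hs : U ⊆ e.target) {V : E n → E n} {i₀ : Fin n}
    (hV : ∀ z ∈ U, ContDiffAt ℝ ∞ V z ∧ V z i₀ = 1) {N κ : ℝ} (hN : 0 ≤ N) (hκ : 0 < κ)
    (h : ∀ ε ∈ Ioc (0 : ℝ) 1, ∃ u y, M.SolB H B ε u ∧ M.Sm y ∧
      (∀ x, 0 ≤ N + M.lap (M.gB H B ε u) y x) ∧ ∀ z ∈ U,
        K94.eT (M.gB H B ε u e) (H e) z / K94.sS (M.gB H B ε u e) (H e) z +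
          κ * K94.sS (M.gB H B ε u e) (H e) z * K94.qV (M.gB H B ε u e) (H e) V z ^ 2 ≤
        N + M.lap (M.gB H B ε u) y (e.symm z)) :
    ∀ z ∈ U, ∀ l i, dzb l (fun w => V w i) z = 0 := by
  obtain ⟨C₀, hC, hP⟩ := phi hK hB
  choose! u y hu hy hW hq using h
  choose! a ha _ using fun ε hε => hP ε hε (u ε) (hu ε hε)
  have ev := Ioc_mem_nhdsGT (zero_lt_one' ℝ)
  have lH := fun z (hz : z ∈ U) => HS68.met_loc hK.toMet he (hs hz)
  have lG := fun ε hε z (hz : z ∈ U) => HS68.met_loc (hu ε hε).kae.toMet he (hs hz)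
  have pos : ∀ ε ∈ Ioc (0 : ℝ) 1, ∀ z ∈ U, 0 < K94.sS (M.gB H B ε (u ε) e) (H e) z ∧
      0 ≤ K94.eT (M.gB H B ε (u ε) e) (H e) z := fun ε hε z hz => by
    obtain ⟨c, -, hc⟩ := (mBD n M H hK.toMet).2.2.1 e he {z} isCompact_singleton
      (singleton_subset_iff.2 (hs hz))
    have := K94.fld hn (AllOn.ev (hu ε hε).kae.pos he (hs hz)) (lG ε hε z hz) (lH z hz)
      (hc z rfl).2.1 i₀
    exact ⟨this.2.1, this.2.2.1⟩
  refine K94.hol (𝓝[>] (0 : ℝ)) hU (H := H e) (G := fun ε => M.gB H B ε (u ε) e)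
    (φ := fun ε z => u ε (e.symm z) - a ε) lH hV ?_ fun K cK hKU => ?_
  · filter_upwards [ev] with ε hε z hz
    exact ⟨lG ε hε z hz, ((hu ε hε).sm e he z (hs hz)).sub contDiffAt_const,
      sub_nonpos.2 ((ha ε hε).le _)⟩
  obtain ⟨C, C0, hc⟩ := chart hK hB he cK (hKU.trans hs) hC hN
  have hc' := fun ε hε => hc _ _ _ _ (hu ε hε).kae.toMet (hu ε hε).sm (hy ε hε) (ha ε hε) (hW ε hε)
  refine ⟨C, fun ε z => M.tr H (M.gB H B ε (u ε)) (e.symm z) + Real.exp (u ε (e.symm z) - a ε) *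
    (N + M.lap (M.gB H B ε (u ε)) (y ε) (e.symm z)) +
      Real.exp (u ε (e.symm z) - a ε) * M.gr H (u ε) (u ε) (e.symm z), ?_, ?_⟩
  · filter_upwards [ev] with ε hε
    refine ⟨fun z hz => ?_, (hc' ε hε).1, (hc' ε hε).2.2⟩
    have hz' := hs (hKU hz)
    rw [tr_sS hK.toMet (hu ε hε).kae.toTen e he z hz', gr_gN hK.toMet (hu ε hε).sm he hz' (a ε)
      (g := fun z => u ε (e.symm z) - a ε) (Eventually.of_forall fun _ => rfl)]
    have b1 := hq ε hε z (hKU hz)
    have b2 := mul_nonneg (mul_pos hκ (pos ε hε z (hKU hz)).1).le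
      (sq_nonneg (K94.qV (M.gB H B ε (u ε) e) (H e) V z))
    have := mul_le_mul_of_nonneg_left ((le_add_of_nonneg_right b2).trans b1)
      (Real.exp_pos (u ε (e.symm z) - a ε)).le
    linarith
  · refine ENNReal.tendsto_nhds_zero.2 fun η hη => ?_
    obtain ⟨r, r0, hr⟩ : ∃ r : ℝ, 0 < r ∧ ENNReal.ofReal r ≤ η := by
      obtain ⟨r, -, r1, r2⟩ := ENNReal.lt_iff_exists_real_btwn.1 hη
      exact ⟨r, ENNReal.ofReal_pos.1 r1, r2.le⟩
    filter_upwards [ev, blow hn hK hB h0 (C / (r * κ))] with ε hε hT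
    refine le_trans ?_ hr
    calc _ ≤ ∫⁻ z in K, ENNReal.ofReal (r / C) * ENNReal.ofReal (Real.exp (u ε (e.symm z) - a ε) *
            (N + M.lap (M.gB H B ε (u ε)) (y ε) (e.symm z))) :=
          setLIntegral_mono' cK.measurableSet fun z hz => by
            rw [← ENNReal.ofReal_mul (by positivity)]
            refine ENNReal.ofReal_le_ofReal ?_
            have b1 := hq ε hε z (hKU hz)
            have b2 := pos ε hε z (hKU hz)
            have b3 := hT _ (hu ε hε) (e.symm z)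
            rw [tr_sS (hu ε hε).kae.toMet hK.toTen e he z (hs (hKU hz))] at b3
            have b4 := mul_le_mul_of_nonneg_right (mul_le_mul_of_nonneg_left b3 hκ.le)
              (sq_nonneg (K94.qV (M.gB H B ε (u ε) e) (H e) V z))
            have b5 := b4.trans ((le_add_of_nonneg_left (div_nonneg b2.2 b2.1.le)).trans b1)
            rw [show κ * (C / (r * κ)) = (r / C)⁻¹ by field_simp,
              inv_mul_le_iff₀ (by positivity)] at b5
            rw [mul_left_comm]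
            exact mul_le_mul_of_nonneg_left b5 (Real.exp_pos _).le
      _ ≤ ENNReal.ofReal (r / C) * ENNReal.ofReal C := by
          rw [lintegral_const_mul' _ _ ENNReal.ofReal_ne_top]
          exact mul_le_mul_right (hc' ε hε).2.1 _
      _ = _ := by rw [← ENNReal.ofReal_mul (by positivity), div_mul_cancel₀ _ C0.ne']

end Pool.Agent.Lib.K88
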