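import Pool.Agent.Lib.KR88.Mean
import Pool.Agent.Lib.KR86.Sel

/-! Project kr24: null vectors at every point, and the integral bounds in a chart. -/

open scoped Classical Topology ContDiff ComplexOrder Matrix ENNReal
open Set MeasureTheory Complex Metric Filter

noncomputable section

namespace Pool.Agent.Lib.K88

open Pool.Agent.Lib.SV (E)
open Pool.Agent.Lib.HS32 Pool.Agent.Lib.HS32.Mf

variable {n : ℕ} {M : Mf n} [M.Cpt] {H B G : M.Fam (Mat n)}

/-- A continuous function that is dominated by the Laplace terms is not positive. -/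
theorem null_fun (hn : 0 < n) (hK : M.Kae H) (hB : M.Clo B)
    (h0 : ∫ x, M.dq H (B - M.ric H) x ∂M.mu H = 0) {c : M.X → ℝ} (hc : Continuous c)
    (c0 : ∀ x, 0 ≤ c x) {N : ℝ} (hN : 0 ≤ N)
    (h : ∀ ε ∈ Ioc (0 : ℝ) 1, ∃ u y, M.SolB H B ε u ∧ M.Sm y ∧
      ∀ x, c x * M.tr (M.gB H B ε u) H x ≤ N + M.lap (M.gB H B ε u) y x) (x₀ : M.X) :
    c x₀ = 0 := by
  by_contra hx
  have hx' : 0 < c x₀ := (c0 x₀).lt_of_ne' hx
  obtain ⟨C, hC, hP⟩ := phi hK hB
  obtain ⟨-, hf, ho, -, hi, -⟩ := mMU n M H hK.toMet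
  have oU : IsOpen {x | c x₀ / 2 < c x} := isOpen_lt continuous_const hc
  obtain ⟨δ, hδ⟩ : ∃ δ, δ = (M.mu H).real {x | c x₀ / 2 < c x} := ⟨_, rfl⟩
  have d0 : 0 < δ := hδ ▸ ENNReal.toReal_pos
    (oU.measure_ne_zero _ ⟨x₀, half_lt_self hx'⟩) (measure_ne_top _ _)
  obtain ⟨L, hL⟩ : ∃ L, L = 2 * C / δ := ⟨_, rfl⟩
  have L0 : 0 < L := hL ▸ by positivity
  obtain ⟨k, hk⟩ : ∃ k, k = Real.exp (-L) * (c x₀ / 2) * (δ / 2) := ⟨_, rfl⟩
  have k0 : 0 < k := hk ▸ by positivity
  obtain ⟨ε, h1, hε⟩ := ((blow hn hK hB h0 ((C * N + 1) / k)).and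
    (Ioc_mem_nhdsGT (zero_lt_one' ℝ))).exists
  obtain ⟨u, y, hu, hy, h2⟩ := h ε hε
  obtain ⟨a, hp, -⟩ := hP ε hε u hu
  have T0 : 0 < (C * N + 1) / k := by positivity
  have su : Continuous fun x => u x - a := hu.sm.continuous.sub continuous_const
  have oW : IsOpen {x | c x₀ / 2 < c x ∧ -L < u x - a} := oU.inter (isOpen_lt continuous_const su)
  have m1 : δ / 2 ≤ (M.mu H).real {x | c x₀ / 2 < c x ∧ -L < u x - a} := by
    have e1 : (M.mu H).real {x | c x₀ / 2 < c x} ≤ (M.mu H).real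
        ({x | c x₀ / 2 < c x ∧ -L < u x - a} ∪ {x | u x - a ≤ -L}) :=
      measureReal_mono fun x hx => (lt_or_ge (-L) (u x - a)).imp (fun k => ⟨hx, k⟩) id
    have e2 := e1.trans (measureReal_union_le _ _)
    have e3 := hp.sub L L0
    have e4 : C / L = δ / 2 := by
      rw [hL]
      field_simp
    linarith
  have s2 := ((mLAP n M y y hy hy).2.2 _ hu.kae.toMet).1
  have i1 : Integrable (fun x => Real.exp (u x - a) * (N + M.lap (M.gB H B ε u) y x)) (M.mu H) :=
    hi ℝ _ (su.rexp.mul (continuous_const.add s2.continuous))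
  have m2 := integral_mono (μ := M.mu H) (f := {x | c x₀ / 2 < c x ∧ -L < u x - a}.indicator
      fun _ => Real.exp (-L) * (c x₀ / 2 * ((C * N + 1) / k)))
    ((integrable_const _).indicator oW.measurableSet) i1 fun x => by
      have b1 := h1 u hu x
      have b2 := h2 x
      by_cases hw : x ∈ {x | c x₀ / 2 < c x ∧ -L < u x - a}
      · rw [indicator_of_mem hw]
        exact mul_le_mul (Real.exp_le_exp.2 hw.2.le)
          ((mul_le_mul hw.1.le b1 T0.le (c0 x)).trans b2) (by positivity) (Real.exp_pos _).le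
      · rw [indicator_of_notMem hw]
        exact mul_nonneg (Real.exp_pos _).le ((mul_nonneg (c0 x) (T0.le.trans b1)).trans b2)
  rw [integral_indicator_const _ oW.measurableSet, smul_eq_mul] at m2
  have m3 := (mul_le_mul_of_nonneg_right m1 (by positivity)).trans (m2.trans (hp.mean y hy N hN))
  have m4 : δ / 2 * (Real.exp (-L) * (c x₀ / 2 * ((C * N + 1) / k))) = C * N + 1 := by
    rw [show δ / 2 * (Real.exp (-L) * (c x₀ / 2 * ((C * N + 1) / k))) =
      Real.exp (-L) * (c x₀ / 2) * (δ / 2) * ((C * N + 1) / k) by ring, ← hk]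
    field_simp
  linarith

/-- There is a null vector at every point. -/
theorem null (hn : 0 < n) (hK : M.Kae H) (hB : M.Clo B)
    (h0 : ∫ x, M.dq H (B - M.ric H) x ∂M.mu H = 0) {D : M.Fam (E n → ℝ)} (hD : K86.VF M D)
    (nn : M.All fun e z => ∀ v, nq (H e z) v = 1 → 0 ≤ D e z v) {N κ : ℝ} (hN : 0 ≤ N)
    (hκ : 0 < κ) (h : ∀ ε ∈ Ioc (0 : ℝ) 1, ∃ u y, M.SolB H B ε u ∧ M.Sm y ∧
      M.All fun e z => ∀ c : ℝ, 0 ≤ c → (∀ v, nq (H e z) v = 1 → c ≤ D e z v) →
        κ * c * M.tr (M.gB H B ε u) H (e.symm z) ≤ N + M.lap (M.gB H B ε u) y (e.symm z)) :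
    M.All fun e z => ∃ v, nq (H e z) v = 1 ∧ D e z v = 0 := by
  intro e he z hz
  by_contra hc
  obtain ⟨c, s, c0, cp, hle⟩ := K86.bump hK.toMet hD nn he hz fun v hv k => hc ⟨v, hv, k⟩
  have := null_fun hn hK hB h0 (c := fun x => κ * c x) (continuous_const.mul s.continuous)
    (fun x => mul_nonneg hκ.le (c0 x)) hN (fun ε hε => by
      obtain ⟨u, y, hu, hy, h1⟩ := h ε hε
      refine ⟨u, y, hu, hy, fun x => ?_⟩
      have h2 := h1.ch x (c x) (c0 x) (by simpa only [ch_symm] using hle.ch x)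
      rwa [ch_symm] at h2) (e.symm z)
  exact (mul_pos hκ cp).ne' this

/-- Integrals in a chart are bounded by integrals on the manifold. -/
theorem chart_le (hH : M.Met H) {e : M.Ch} (he : e ∈ M.C) {K : Set (E n)} (hK : IsCompact K)
    (hs : K ⊆ e.target) : ∃ A : ℝ, 1 ≤ A ∧
    (∀ f : M.X → ℝ≥0∞, ∫⁻ z in K, f (e.symm z) ≤ ENNReal.ofReal A * ∫⁻ x, f x ∂M.mu H) ∧
    (∀ f : M.X → ℝ, Continuous f → (∀ x, 0 ≤ f x) →
      ∫⁻ z in K, ENNReal.ofReal (f (e.symm z)) ≤ ENNReal.ofReal (A * ∫ x, f x ∂M.mu H)) ∧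
    ∀ S : Set M.X, MeasurableSet S →
      volume {z | z ∈ K ∧ e.symm z ∈ S} ≤ ENNReal.ofReal (A * (M.mu H).real S) := by
  obtain ⟨A, A1, hA⟩ := (mBD n M H hH).2.2.1 e he K hK hs
  obtain ⟨-, hf, -, -, hi, hm, -⟩ := mMU n M H hH
  have A0 : 0 < A := by linarith
  have k1 : ∀ f : M.X → ℝ≥0∞,
      ∫⁻ z in K, f (e.symm z) ≤ ENNReal.ofReal A * ∫⁻ x, f x ∂M.mu H := fun f => by
    refine le_trans ?_ (mul_le_mul_right (setLIntegral_le_lintegral (e.symm '' K) f) _)
    rw [(hm e he K hK.measurableSet hs).2.1 f, ← lintegral_const_mul' _ _ ENNReal.ofReal_ne_top]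
    refine setLIntegral_mono' hK.measurableSet fun z hz => ?_
    rw [← mul_assoc, ← ENNReal.ofReal_mul A0.le]
    refine le_mul_of_one_le_left' (ENNReal.one_le_ofReal.2 ?_)
    have := mul_le_mul_of_nonneg_left (hA z hz).2.2.1 A0.le
    rwa [mul_inv_cancel₀ A0.ne'] at this
  refine ⟨A, A1, k1, fun f hc h0 => ?_, fun S hS => ?_⟩
  · rw [ENNReal.ofReal_mul A0.le,
      ofReal_integral_eq_lintegral_ofReal (hi ℝ f hc) (Eventually.of_forall h0)]
    exact k1 _
  · have k2 := k1 (S.indicator 1)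
    rw [lintegral_indicator_one hS] at k2
    rw [ENNReal.ofReal_mul A0.le, ofReal_measureReal]
    refine le_trans ?_ k2
    have k4 : MeasurableSet (K ∩ {z | e.symm z ∈ S}) :=
      ((MeasurableEmbedding.subtype_coe hK.measurableSet).measurableSet_image'
        ((e.continuousOn_symm.mono hs).restrict.measurable hS)).congr (by
          ext z
          simp [and_comm])
    calc volume {z | z ∈ K ∧ e.symm z ∈ S}
        = ∫⁻ z in K, (K ∩ {z | e.symm z ∈ S}).indicator 1 z := by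
          rw [lintegral_indicator_one k4, Measure.restrict_apply k4, inter_comm, ← inter_assoc,
            inter_self]
          rfl
      _ ≤ _ := setLIntegral_mono' hK.measurableSet fun z hz => by
          by_cases k : e.symm z ∈ S
          · rw [indicator_of_mem (show z ∈ K ∩ {z | e.symm z ∈ S} from ⟨hz, k⟩),
              indicator_of_mem k]
            rfl
          · rw [indicator_of_notMem (fun a : z ∈ K ∩ {z | e.symm z ∈ S} => k a.2)]
            exact zero_le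

end Pool.Agent.Lib.K88
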